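import Pool.Agent.N290.RN.Stm
import Pool.Agent.N787.RJ.D4

/-!
Project RN (helper290), part D4K (helper322): limits of local solutions, only `k ≥ k₀` is needed;
adapted from D4N (helper787).
-/

set_option autoImplicit false

open Complex MeasureTheory Set Filter Topology
open scoped ENNReal

namespace Pool.Agent.N322.RN

open Pool.Agent.N290.RJ

open Pool.Agent.N787.RJ.D4aux in
theorem D4K (d : ℕ) : Pool.Agent.N290.RN.D4K d := by
  intro M C ρ p k₀ f hf hk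
  have hk' : ∀ k : ℕ, ∃ g : Fin M → E d → ℂ,
      (∀ j, DifferentiableOn ℂ (g j) {z | z ∈ B d ∧ nm (z - p) < ρ}) ∧
      ∀ z ∈ B d, nm (z - p) < ρ →
        (∀ j, ‖g j z‖ ≤ C) ∧ ∑ j, f j (rad (k + k₀) • z) * g j z = 1 :=
    fun k => hk (k + k₀) (Nat.le_add_left k₀ k)
  choose g hg hkl using hk'
  obtain ⟨𝒰, hle⟩ : ∃ 𝒰 : Ultrafilter ℕ, (𝒰 : Filter ℕ) ≤ atTop :=
    ⟨Ultrafilter.of atTop, Ultrafilter.of_le _⟩
  have hopen : IsOpen {z : E d | z ∈ B d ∧ nm (z - p) < ρ} := by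
    have hc : Continuous fun z : E d => nm (z - p) :=
      Real.continuous_sqrt.comp (N_continuous.comp (continuous_id.sub continuous_const))
    exact B_open.inter (isOpen_lt hc continuous_const)
  have h1 : ∀ j, ∃ v : E d → ℂ, DifferentiableOn ℂ v {z : E d | z ∈ B d ∧ nm (z - p) < ρ} ∧
      (∀ z ∈ {z : E d | z ∈ B d ∧ nm (z - p) < ρ}, ‖v z‖ ≤ C) ∧
      ∀ z ∈ {z : E d | z ∈ B d ∧ nm (z - p) < ρ}, Tendsto (fun k => g k j z) 𝒰 (𝓝 (v z)) := by
    intro j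
    exact Pool.Agent.H720R2.Cor.ultra_lim hopen (C := C) 𝒰 (fun k => g k j) (fun k => hg k j)
      fun k z hz => (hkl k z hz.1 hz.2).1 j
  choose v hv1 hv2 hv3 using h1
  refine ⟨v, hv1, fun z hz hzp => ⟨fun j => hv2 j z ⟨hz, hzp⟩, ?_⟩⟩
  have h2 : Tendsto (fun k => ∑ j, f j (rad (k + k₀) • z) * g k j z) 𝒰
      (𝓝 (∑ j, f j z * v j z)) :=
    tendsto_finsetSum _ fun j _ =>
      ((((comp_tendsto (f j) (hf j) hz).comp (tendsto_add_atTop_nat k₀))).mono_left hle).mul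
        (hv3 j z ⟨hz, hzp⟩)
  have h3 : (fun k => ∑ j, f j (rad (k + k₀) • z) * g k j z) = fun _ => (1 : ℂ) := by
    funext k
    exact (hkl k z hz hzp).2
  rw [h3] at h2
  exact tendsto_nhds_unique h2 tendsto_const_nhds

end Pool.Agent.N322.RN
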